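import Pool.Agent.H18.CGR.Stmts

/-!
# Row EVA of the board `cgr`: evaluation of power series
-/

set_option autoImplicit false

namespace Pool.CGR

theorem eva_thm (hLIF : LIFStmt) (hEXT : EXTStmt) : EVAStmt := by
  intro m A _ x hx
  have h1 : ‖(1 : A)‖ ≤ 1 := by
    rcases subsingleton_or_nontrivial A with h | h
    · have h0 : (1 : A) = 0 := Subsingleton.elim _ _
      rw [h0, norm_zero]
      exact zero_le_one
    · rw [CStarRing.norm_one]
  have hev : ∀ w : List (Fin m), ‖ev x w‖ ≤ (5 / 2) ^ w.length := by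
    intro w
    induction w with
    | nil => simpa [ev] using h1
    | cons a w ih =>
      have h2 : ev x (a :: w) = x a * ev x w := by simp [ev]
      rw [h2, List.length_cons, pow_succ']
      exact (norm_mul_le _ _).trans (mul_le_mul (hx a) ih (norm_nonneg _) (by norm_num))
  have hn : ∀ w : List (Fin m), ‖((2 / 5 : ℂ) ^ w.length) • ev x w‖ ≤ 1 := by
    intro w
    rw [norm_smul, norm_pow]
    have h3 : ‖(2 / 5 : ℂ)‖ = 2 / 5 := by
      rw [norm_div]; norm_num
    rw [h3]
    calc (2 / 5 : ℝ) ^ w.length * ‖ev x w‖ ≤ (2 / 5 : ℝ) ^ w.length * (5 / 2) ^ w.length :=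
          mul_le_mul_of_nonneg_left (hev w) (by positivity)
      _ = 1 := by rw [← mul_pow]; norm_num
  obtain ⟨V, hV, -, hV2⟩ := hLIF m A (fun w => ((2 / 5 : ℂ) ^ w.length) • ev x w) 1 zero_le_one hn
  refine ⟨V, hV, ?_, ?_⟩
  · intro f
    have h4 := hV2 f
    simpa only [smul_smul] using h4
  · intro X hX i f
    have h5 : V.comp (X i) = ((ContinuousLinearMap.mul ℂ A) (x i)).comp V := by
      apply hEXT
      intro w
      rw [ContinuousLinearMap.comp_apply, ContinuousLinearMap.comp_apply, hX i w, map_smul, hV, hV,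
        ContinuousLinearMap.mul_apply', mul_smul_comm, smul_smul, List.length_cons, pow_succ']
      have h6 : ev x (i :: w) = x i * ev x w := by simp [ev]
      rw [h6, ← mul_assoc]
      norm_num
    have h7 := congrArg (fun L : E1 m →L[ℂ] A => L f) h5
    exact h7

end Pool.CGR
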