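import Pool.Agent.H18.CGR.Stmts2

/-!
# Row FSA of the board `cgr`: words are combinations of alternating centred products
-/

set_option autoImplicit false

namespace Pool.CGR

theorem fsa_thm : FSAStmt := by
  classical
  intro X O c ψ hψ
  let S : O → Subalgebra ℂ (FreeAlgebra ℂ X) :=
    fun j => Algebra.adjoin ℂ (FreeAlgebra.ι ℂ '' (c ⁻¹' {j}))
  let G : Set (FreeAlgebra ℂ X) := {q : FreeAlgebra ℂ X | ∃ l : List (O × FreeAlgebra ℂ X),
      l.IsChain (fun a b => a.1 ≠ b.1) ∧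
      (∀ a ∈ l, a.2 ∈ S a.1 ∧ ψ a.2 = 0) ∧
      q = (l.map Prod.snd).prod}
  let V : Submodule ℂ (FreeAlgebra ℂ X) := Submodule.span ℂ G
  have hcen : ∀ b : FreeAlgebra ℂ X, ψ (b - ψ b • (1 : FreeAlgebra ℂ X)) = 0 := by
    intro b
    rw [map_sub, map_smul, hψ, smul_eq_mul, mul_one, sub_self]
  have hone : (1 : FreeAlgebra ℂ X) ∈ V := by
    refine Submodule.subset_span ⟨[], by simp, by simp, by simp⟩
  have aux : ∀ (j : O) (b : FreeAlgebra ℂ X) (l : List (O × FreeAlgebra ℂ X)), b ∈ S j →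
      ((j, b - ψ b • (1 : FreeAlgebra ℂ X)) :: l).IsChain (fun a b => a.1 ≠ b.1) →
      (∀ a ∈ l, a.2 ∈ S a.1 ∧ ψ a.2 = 0) → b * (l.map Prod.snd).prod ∈ V := by
    intro j b l hb hch hl
    have h1 : b * (l.map Prod.snd).prod = (b - ψ b • (1 : FreeAlgebra ℂ X)) *
        (l.map Prod.snd).prod + ψ b • (l.map Prod.snd).prod := by
      rw [sub_mul, smul_mul_assoc, one_mul, sub_add_cancel]
    rw [h1]
    refine V.add_mem (Submodule.subset_span ⟨(j, b - ψ b • (1 : FreeAlgebra ℂ X)) :: l, hch, ?_,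
      by simp⟩) (V.smul_mem _ (Submodule.subset_span ⟨l, hch.tail, hl, rfl⟩))
    intro a ha
    rcases List.mem_cons.mp ha with h | h
    · subst h
      exact ⟨(S j).sub_mem hb ((S j).smul_mem (S j).one_mem _), hcen b⟩
    · exact hl a h
  have hgen : ∀ x : X, ∀ q ∈ G, FreeAlgebra.ι ℂ x * q ∈ V := by
    rintro x q ⟨l, hl, ha, rfl⟩
    have hx : FreeAlgebra.ι ℂ x ∈ S (c x) := Algebra.subset_adjoin ⟨x, rfl, rfl⟩
    rcases l with _ | ⟨⟨j, a⟩, l'⟩
    · exact aux (c x) _ [] hx (by simp) (by simp)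
    · by_cases hj : c x = j
      · have ha' := ha (j, a) (by simp)
        have h2 : FreeAlgebra.ι ℂ x * ((((j, a) :: l').map Prod.snd).prod) =
            (FreeAlgebra.ι ℂ x * a) * (l'.map Prod.snd).prod := by
          rw [List.map_cons, List.prod_cons, mul_assoc]
        rw [h2]
        refine aux j _ l' ((S j).mul_mem (by rw [← hj]; exact hx) ha'.1) ?_
          (fun b hb => ha b (List.mem_cons_of_mem _ hb))
        rcases l' with _ | ⟨d, l''⟩
        · simp
        · rw [List.isChain_cons_cons] at hl ⊢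
          exact ⟨hl.1, hl.2⟩
      · refine aux (c x) _ _ hx ?_ ha
        rw [List.isChain_cons_cons]
        exact ⟨hj, hl⟩
  have hV : ∀ x : X, ∀ q ∈ V, FreeAlgebra.ι ℂ x * q ∈ V := by
    intro x q hq
    refine Submodule.span_induction (p := fun q _ => FreeAlgebra.ι ℂ x * q ∈ V) ?_ ?_ ?_ ?_ hq
    · intro q hq
      exact hgen x q hq
    · rw [mul_zero]
      exact V.zero_mem
    · intro q r _ _ h1 h2
      rw [mul_add]
      exact V.add_mem h1 h2
    · intro z q _ h1
      rw [mul_smul_comm]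
      exact V.smul_mem z h1
  have hall : ∀ p : FreeAlgebra ℂ X, ∀ q ∈ V, p * q ∈ V := by
    intro p
    refine FreeAlgebra.induction (motive := fun p => ∀ q ∈ V, p * q ∈ V) ℂ X ?_ ?_ ?_ ?_ p
    · intro r q hq
      rw [← Algebra.smul_def]
      exact V.smul_mem r hq
    · exact hV
    · intro a b h1 h2 q hq
      rw [mul_assoc]
      exact h1 _ (h2 q hq)
    · intro a b h1 h2 q hq
      rw [add_mul]
      exact V.add_mem (h1 q hq) (h2 q hq)
  intro p
  have h := hall p 1 hone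
  rw [mul_one] at h
  exact h

end Pool.CGR
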