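import Pool.Agent.H18.CGR.Stmts

/-!
# Row MOM of the board `cgr`: the moments of a semicircular element are Catalan numbers
-/

set_option autoImplicit false

namespace Pool.CGR

open Finset

theorem mom_even_sum (f : ℕ → ℂ) (hf : ∀ k, f (2 * k + 1) = 0) (N : ℕ) :
    ∑ k ∈ range (2 * N + 1), f k = ∑ a ∈ range (N + 1), f (2 * a) := by
  induction N with
  | zero => simp
  | succ N ih =>
    rw [Finset.sum_range_succ (fun a => f (2 * a)) (N + 1), ← ih]
    have h1 : 2 * (N + 1) + 1 = (2 * N + 1) + 1 + 1 := by ring
    rw [h1, Finset.sum_range_succ, Finset.sum_range_succ, hf N, add_zero]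
    have h2 : 2 * N + 1 + 1 = 2 * (N + 1) := by ring
    rw [h2]

theorem mom_thm : MOMStmt := by
  intro m A _ τ hτ y S hS i
  have hev : ∀ n, ev (Sum.elim y S) (List.replicate n (Sum.inr i)) = S i ^ n := by
    intro n
    simp [ev]
  have hrec : ∀ n, τ (S i ^ (n + 1)) =
      ∑ k ∈ range n, τ (S i ^ k) * τ (S i ^ (n - (k + 1))) := by
    intro n
    have h := hS i (List.replicate n (Sum.inr i))
    rw [hev, ← pow_succ'] at h
    rw [h]
    unfold dq
    rw [List.length_replicate]
    refine Finset.sum_congr rfl (fun k hk => ?_)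
    have hk' := Finset.mem_range.mp hk
    have h3 : (List.replicate n (Sum.inr i : Fin m ⊕ Fin m))[k]? = some (Sum.inr i) := by
      rw [List.getElem?_replicate, if_pos hk']
    rw [if_pos h3, List.take_replicate, List.drop_replicate, min_eq_left (le_of_lt hk')]
    show τ (ev (Sum.elim y S) (List.replicate k (Sum.inr i))) *
      τ (ev (Sum.elim y S) (List.replicate (n - (k + 1)) (Sum.inr i))) = _
    rw [hev, hev]
  have hodd : ∀ n j, j ≤ n → τ (S i ^ (2 * j + 1)) = 0 := by
    intro n
    induction n with
    | zero =>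
      intro j hj
      have hj0 : j = 0 := by omega
      subst hj0
      rw [hrec]
      simp
    | succ n ih =>
      intro j hj
      rw [hrec]
      refine Finset.sum_eq_zero (fun k hk => ?_)
      have hk' := Finset.mem_range.mp hk
      rcases Nat.even_or_odd' k with ⟨a, ha | ha⟩
      · have h1 : 2 * j - (k + 1) = 2 * (j - a - 1) + 1 := by omega
        rw [h1, ih (j - a - 1) (by omega), mul_zero]
      · rw [ha, ih a (by omega), zero_mul]
  have hodd' : ∀ j, τ (S i ^ (2 * j + 1)) = 0 := fun j => hodd j j le_rfl
  have key : ∀ n j, j ≤ n → τ (S i ^ (2 * j)) = catalan j := by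
    intro n
    induction n with
    | zero =>
      intro j hj
      have hj0 : j = 0 := by omega
      subst hj0
      simp [hτ.one]
    | succ n ih =>
      intro j hj
      rcases Nat.eq_zero_or_pos j with h0 | h0
      · subst h0
        simp [hτ.one]
      · obtain ⟨l, rfl⟩ : ∃ l, j = l + 1 := ⟨j - 1, by omega⟩
        have h1 : 2 * (l + 1) = (2 * l + 1) + 1 := by ring
        rw [h1, hrec, mom_even_sum (fun k => τ (S i ^ k) * τ (S i ^ (2 * l + 1 - (k + 1))))
          (fun k => by simp only [hodd' k, zero_mul]) l, catalan_succ, Nat.cast_sum,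
          Finset.sum_range]
        refine Finset.sum_congr rfl (fun a _ => ?_)
        have ha : (a : ℕ) < l + 1 := a.2
        have h2 : 2 * l + 1 - (2 * (a : ℕ) + 1) = 2 * (l - a) := by omega
        rw [h2, ih a (by omega), ih (l - a) (by omega), Nat.cast_mul]
  intro n
  exact key n n le_rfl

end Pool.CGR
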